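import Mathlib
import Pool.Agent.X130.PM2.Mem

set_option autoImplicit false

/-!
# COL-2PM is NP-complete

The reduction is from 3SAT. For every variable there is a long even cycle of colour 1; its vertices have
no other edges of colour 1, so the first matching contains one of the two perfect matchings of the
cycle, and this is the value of the variable; the second matching can only use the edges of the other
one. For every clause there are two vertices joined by an edge of colour 1, which must be in the first
matching. Every literal of the clause has its own edge in the cycle of its variable (at an even or odd
place according to its sign), and the ends of this edge are joined to the two vertices of the clause by
edges of colour 2. The second matching must match the two vertices of the clause with the two ends of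
the edge of one of the literals, and this edge must be in the complementary matching of the cycle.
-/

namespace Pool.Agent.Results.MP_439cda_lc.Col2PMNPComplete

open Pool.Agent.NPC Pool.Agent.X130.PM2

/-- COL-2PM is `NP`-complete (in `NP`, and `NP`-hard under polynomial-time many-one reductions). -/
theorem result : InNPP COL2PM ∧ NPHardP COL2PM := ⟨mem, hard⟩

end Pool.Agent.Results.MP_439cda_lc.Col2PMNPComplete
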